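import Pool.Agent.SPT.Uni
import Pool.Agent.SPB.TriC

/-!
# [SPT-Bas] the base of the tower: new coordinates which vanish
-/

open Finset

set_option autoImplicit false
set_option linter.unusedSectionVars false

namespace Pool.Agent.SPT

open Pool.Agent.SPB Pool.Agent.SPP

theorem RC.base {ν ι S : Type} [Fintype ν] [Fintype ι] {Q : Set (ν → ℝ)} (hQ : Convex ℝ Q) (hT : HasRUT Q)
    (a : S → ν ⊕ ι → ℤ) (β : S → ℤ) (h0 : ∀ t, ∀ x : ν ⊕ ι → ℝ, (fun j => x (Sum.inl j)) ∈ Q →
      (∀ i, x (Sum.inr i) = 0) → ev (a t) (β t) x ≤ 0) :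
    RC {x : ν ⊕ ι → ℝ | (fun j => x (Sum.inl j)) ∈ Q ∧ ∀ i, x (Sum.inr i) = 0} a β := by
  classical
  obtain ⟨A, w, hw, rfl, -, hA⟩ := RU_of_hasRUT hQ hT
  obtain ⟨ext, hext⟩ : ∃ ext : (ν → ℤ) → (ν ⊕ ι → ℤ), ext = fun q => Sum.elim q (fun _ => (0 : ℤ)) :=
    ⟨_, rfl⟩
  have hel : ∀ q j, ext q (Sum.inl j) = q j := by
    intro q j; rw [hext]; rfl
  have her : ∀ q i, ext q (Sum.inr i) = 0 := by
    intro q j; rw [hext]; rfl
  have hinj : ∀ q ∈ A, ∀ q' ∈ A, ext q = ext q' → q = q' := by
    intro q _ q' _ h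
    funext j
    have := congrFun h (Sum.inl j)
    rwa [hel, hel] at this
  have hB : ∀ x, x ∈ A.image ext ↔ (fun j => x (Sum.inl j)) ∈ A ∧ ∀ i, x (Sum.inr i) = 0 := by
    intro x
    rw [Finset.mem_image]
    constructor
    · rintro ⟨q, hq, rfl⟩
      refine ⟨?_, her q⟩
      have : (fun j => ext q (Sum.inl j)) = q := funext (hel q)
      rw [this]
      exact hq
    · rintro ⟨h1, h2⟩
      refine ⟨_, h1, ?_⟩
      funext j
      rcases j with j | i
      · rw [hel]
      · rw [her, h2]
  have hBP : ∀ x, x ∈ A.image ext ↔ emb x ∈ {x : ν ⊕ ι → ℝ | (fun j => x (Sum.inl j)) ∈ hull A ∧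
      ∀ i, x (Sum.inr i) = 0} := by
    intro x
    rw [hB, hA]
    refine and_congr (by rfl) (forall_congr' fun i => ?_)
    unfold emb
    norm_cast
  refine ⟨A.image ext, fun x => w (fun j => x (Sum.inl j)), ?_, ?_, hBP, ?_⟩
  · intro g e hge
    have hgA : ∀ q ∈ A, ∑ j, g (Sum.inl j) * (q j : ℝ) + e ≤ w q := by
      intro q hq
      have h1 := hge (ext q) (Finset.mem_image_of_mem _ hq)
      rw [Fintype.sum_sum_type] at h1
      simp only [hel, her, Int.cast_zero, mul_zero, Finset.sum_const_zero, add_zero] at h1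
      exact h1
    have hU := hw (fun j => g (Sum.inl j)) e hgA
    have hC : contact (A.image ext) (fun x => w (fun j => x (Sum.inl j))) g e ⊆
        (contact A w (fun j => g (Sum.inl j)) e).image ext := by
      intro x hx
      unfold contact at hx ⊢
      rw [Finset.mem_filter, Finset.mem_image] at hx
      obtain ⟨⟨q, hq, rfl⟩, h2⟩ := hx
      rw [Finset.mem_image]
      refine ⟨q, Finset.mem_filter.2 ⟨hq, ?_⟩, rfl⟩
      rw [Fintype.sum_sum_type] at h2
      simp only [hel, her, Int.cast_zero, mul_zero, Finset.sum_const_zero, add_zero] at h2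
      exact h2
    refine Uni.mono ?_ hC
    intro c hc0 hc1 x hx
    have hinj' : ∀ q ∈ contact A w (fun j => g (Sum.inl j)) e, ∀ q' ∈ contact A w (fun j => g (Sum.inl j)) e,
        ext q = ext q' → q = q' := by
      intro q hq q' hq'
      unfold contact at hq hq'
      exact hinj q (Finset.mem_filter.1 hq).1 q' (Finset.mem_filter.1 hq').1
    rw [Finset.mem_image] at hx
    obtain ⟨q, hq, rfl⟩ := hx
    refine hU (fun q => c (ext q)) ?_ ?_ q hq
    · rw [Finset.sum_image hinj'] at hc0
      exact hc0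
    · intro j
      have h1 := hc1 (Sum.inl j)
      rw [Finset.sum_image hinj'] at h1
      simp only [hel] at h1
      exact h1
  · ext x
    rw [Set.mem_ofPred_eq, mem_hull, mem_hull]
    constructor
    · rintro ⟨⟨l, l0, l1, l2⟩, h2⟩
      refine ⟨fun y => l (fun j => y (Sum.inl j)), ?_, ?_, ?_⟩
      · intro y hy
        exact l0 _ ((hB y).1 hy).1
      · rw [Finset.sum_image hinj]
        simp only [hel]
        exact l1
      · intro i
        rw [Finset.sum_image hinj]
        rcases i with i | i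
        · simp only [hel]
          exact l2 i
        · simp only [hel, her, Int.cast_zero, mul_zero, Finset.sum_const_zero]
          exact (h2 i).symm
    · rintro ⟨l, l0, l1, l2⟩
      refine ⟨⟨fun q => l (ext q), fun q hq => l0 _ (Finset.mem_image_of_mem _ hq), ?_, fun j => ?_⟩, fun i => ?_⟩
      · rw [Finset.sum_image hinj] at l1
        exact l1
      · have := l2 (Sum.inl j)
        rw [Finset.sum_image hinj] at this
        simp only [hel] at this
        exact this
      · have := l2 (Sum.inr i)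
        rw [Finset.sum_image hinj] at this
        simp only [her, Int.cast_zero, mul_zero, Finset.sum_const_zero] at this
        exact this.symm
  · intro g e _ t
    right
    intro x hx
    have hxB : x ∈ A.image ext := by
      unfold contact at hx
      exact (Finset.mem_filter.1 hx).1
    have h1 := (hBP x).1 hxB
    have h2 := h0 t (emb x) h1.1 h1.2
    rw [ev_emb] at h2
    exact_mod_cast h2

end Pool.Agent.SPT
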