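import Pool.Agent.SPT.Uni
import Pool.Agent.SPP.Cov

/-!
# [SPT-Cut] the part of the polytope where all `Φ_t` are nonnegative
-/

open Finset

set_option autoImplicit false
set_option linter.unusedSectionVars false

namespace Pool.Agent.SPT

open Pool.Agent.SPB Pool.Agent.SPP

private theorem ev_hull {ι : Type} [Fintype ι] (a : ι → ℤ) (b : ℤ) {s : Finset (ι → ℤ)} {l : (ι → ℤ) → ℝ} {x : ι → ℝ}
    (h1 : ∑ y ∈ s, l y = 1) (h2 : ∀ i, ∑ y ∈ s, l y * (y i : ℝ) = x i) : ev a b x = ∑ y ∈ s, l y * (evz a b y : ℝ) := by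
  unfold ev evz
  push_cast
  simp only [mul_add, Finset.sum_add_distrib, Finset.mul_sum]
  rw [← Finset.sum_mul, h1, one_mul, Finset.sum_comm]
  congr 1
  refine Finset.sum_congr rfl fun i _ => ?_
  rw [← h2 i, Finset.mul_sum]
  exact Finset.sum_congr rfl fun y _ => by ring

theorem RC.cut {ι S : Type} [Fintype ι] {P : Set (ι → ℝ)} {a : S → ι → ℤ} {β : S → ℤ} (h : RC P a β) (T : Set S) :
    RC (P ∩ {x | ∀ t ∈ T, 0 ≤ ev (a t) (β t) x}) a β := by
  classical
  obtain ⟨A, w, hw, rfl, hA, hs⟩ := h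
  have hcov := covers_gen A w
  obtain ⟨D, hD⟩ : ∃ D : Finset (ι → ℤ), ∀ x, x ∈ D ↔ x ∈ A ∧ ∀ t ∈ T, 0 ≤ evz (a t) (β t) x :=
    ⟨A.filter (fun x => ∀ t ∈ T, 0 ≤ evz (a t) (β t) x), fun x => Finset.mem_filter⟩
  have hDA : D ⊆ A := fun x hx => ((hD x).1 hx).1
  -- the points of the contact set which are needed for a point in the cut
  have hkey : ∀ (g : ι → ℝ) (e : ℝ), (∀ x ∈ A, ∑ i, g i * (x i : ℝ) + e ≤ w x) → ∀ (x : ι → ℝ) (l : (ι → ℤ) → ℝ),
      (∀ t ∈ T, 0 ≤ ev (a t) (β t) x) → (∀ y ∈ contact A w g e, 0 ≤ l y) → ∑ y ∈ contact A w g e, l y = 1 →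
      (∀ i, ∑ y ∈ contact A w g e, l y * (y i : ℝ) = x i) → ∀ y ∈ contact A w g e, l y ≠ 0 → y ∈ D := by
    intro g e hge x l hx l0 l1 l2 y hy hly
    have hyA : y ∈ A := by
      unfold contact at hy
      exact (Finset.mem_filter.1 hy).1
    refine (hD y).2 ⟨hyA, fun t ht => ?_⟩
    rcases hs g e hge t with h1 | h1
    · exact h1 y hy
    · have h2 := hx t ht
      rw [ev_hull (a t) (β t) l1 l2] at h2
      have h3 : ∀ z ∈ contact A w g e, l z * (evz (a t) (β t) z : ℝ) ≤ 0 := fun z hz =>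
        mul_nonpos_of_nonneg_of_nonpos (l0 z hz) (by exact_mod_cast h1 z hz)
      have h4 := (Finset.sum_eq_zero_iff_of_nonpos h3).1 (le_antisymm (Finset.sum_nonpos h3) h2) y hy
      rcases mul_eq_zero.1 h4 with h5 | h5
      · exact absurd h5 hly
      · have h6 : evz (a t) (β t) y = 0 := by exact_mod_cast h5
        rw [h6]
  have hmono : hull D ⊆ hull A := convexHull_mono (Set.image_mono fun x hx => hDA hx)
  have hpos : ∀ x ∈ hull D, ∀ t ∈ T, 0 ≤ ev (a t) (β t) x := by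
    intro x hx t ht
    obtain ⟨l, l0, l1, l2⟩ := mem_hull.1 hx
    rw [ev_hull (a t) (β t) l1 l2]
    exact Finset.sum_nonneg fun y hy => mul_nonneg (l0 y hy) (by exact_mod_cast ((hD y).1 hy).2 t ht)
  have hhull : hull A ∩ {x | ∀ t ∈ T, 0 ≤ ev (a t) (β t) x} = hull D := by
    ext x
    constructor
    · rintro ⟨hx, hx'⟩
      obtain ⟨g, e, hge, hxc⟩ := hcov x hx
      obtain ⟨l, l0, l1, l2⟩ := mem_hull.1 hxc
      have h1 := hkey g e hge x l hx' l0 l1 l2
      have h2 : x ∈ hull ((contact A w g e).filter (fun y => l y ≠ 0)) := by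
        refine mem_hull.2 ⟨l, fun y hy => l0 y (Finset.mem_filter.1 hy).1, ?_, fun i => ?_⟩
        · rw [Finset.sum_filter_of_ne (fun y _ h => h)]
          exact l1
        · rw [Finset.sum_filter_of_ne (fun y _ h => left_ne_zero_of_mul h)]
          exact l2 i
      refine convexHull_mono (Set.image_mono fun y hy => ?_) h2
      have h3 := Finset.mem_filter.1 (Finset.mem_coe.1 hy)
      exact h1 y h3.1 h3.2
    · intro hx
      exact ⟨hmono hx, hpos x hx⟩
  -- the contact sets are contained in contact sets of `A`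
  have hcon : ∀ (g' : ι → ℝ) (e' : ℝ), (∀ x ∈ D, ∑ i, g' i * (x i : ℝ) + e' ≤ w x) →
      contact D w g' e' = ∅ ∨ ∃ (g : ι → ℝ) (e : ℝ), (∀ x ∈ A, ∑ i, g i * (x i : ℝ) + e ≤ w x) ∧
        contact D w g' e' ⊆ contact A w g e := by
    intro g' e' hge'
    rcases (contact D w g' e').eq_empty_or_nonempty with h0 | hne
    · exact Or.inl h0
    right
    have hC : ∀ y, y ∈ contact D w g' e' ↔ y ∈ D ∧ ∑ i, g' i * (y i : ℝ) + e' = w y := by
      intro y
      unfold contact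
      exact Finset.mem_filter
    set C := contact D w g' e' with hCdef
    have hcard : (0 : ℝ) < (C.card : ℝ) := by exact_mod_cast Finset.card_pos.2 hne
    -- the barycentre
    obtain ⟨x, hx⟩ : ∃ x : ι → ℝ, ∀ i, x i = ∑ y ∈ C, ((C.card : ℝ))⁻¹ * (y i : ℝ) := ⟨_, fun i => rfl⟩
    have hm1 : ∑ y ∈ C, ((C.card : ℝ))⁻¹ = 1 := by
      rw [Finset.sum_const, nsmul_eq_mul, mul_inv_cancel₀ hcard.ne']
    have hxD : x ∈ hull D := by
      have : x ∈ hull C := mem_hull.2 ⟨fun _ => ((C.card : ℝ))⁻¹, fun y _ => by positivity, hm1, fun i => (hx i).symm⟩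
      exact convexHull_mono (Set.image_mono fun y hy => ((hC y).1 hy).1) this
    obtain ⟨g, e, hge, hxc⟩ := hcov x (hmono hxD)
    obtain ⟨l, l0, l1, l2⟩ := mem_hull.1 hxc
    have h1 := hkey g e hge x l (hpos x hxD) l0 l1 l2
    have haff : ∀ (G : ι → ℝ) (E : ℝ) (s : Finset (ι → ℤ)) (k : (ι → ℤ) → ℝ), ∑ y ∈ s, k y = 1 →
        (∀ i, ∑ y ∈ s, k y * (y i : ℝ) = x i) → ∑ y ∈ s, k y * (∑ i, G i * (y i : ℝ) + E) = ∑ i, G i * x i + E := by
      intro G E s k k1 k2
      simp only [mul_add, Finset.sum_add_distrib, Finset.mul_sum]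
      rw [← Finset.sum_mul, k1, one_mul, Finset.sum_comm]
      congr 1
      refine Finset.sum_congr rfl fun i _ => ?_
      rw [← k2 i, Finset.mul_sum]
      exact Finset.sum_congr rfl fun y _ => by ring
    -- values at the barycentre
    have e1 : ∑ i, g i * x i + e = ∑ y ∈ contact A w g e, l y * w y := by
      rw [← haff g e _ l l1 l2]
      refine Finset.sum_congr rfl fun y hy => ?_
      have : ∑ i, g i * (y i : ℝ) + e = w y := by
        unfold contact at hy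
        exact (Finset.mem_filter.1 hy).2
      rw [this]
    have e2 : ∑ i, g' i * x i + e' ≤ ∑ y ∈ contact A w g e, l y * w y := by
      rw [← haff g' e' _ l l1 l2]
      refine Finset.sum_le_sum fun y hy => ?_
      by_cases hly : l y = 0
      · rw [hly, zero_mul, zero_mul]
      · exact mul_le_mul_of_nonneg_left (hge' y (h1 y hy hly)) (l0 y hy)
    have e3 : ∑ i, g' i * x i + e' = ∑ y ∈ C, ((C.card : ℝ))⁻¹ * w y := by
      rw [← haff g' e' C (fun _ => ((C.card : ℝ))⁻¹) hm1 (fun i => (hx i).symm)]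
      refine Finset.sum_congr rfl fun y hy => ?_
      rw [((hC y).1 hy).2]
    have e4 : ∑ i, g i * x i + e = ∑ y ∈ C, ((C.card : ℝ))⁻¹ * (∑ i, g i * (y i : ℝ) + e) :=
      (haff g e C (fun _ => ((C.card : ℝ))⁻¹) hm1 (fun i => (hx i).symm)).symm
    have e5 : ∀ y ∈ C, ((C.card : ℝ))⁻¹ * (∑ i, g i * (y i : ℝ) + e) ≤ ((C.card : ℝ))⁻¹ * w y := fun y hy =>
      mul_le_mul_of_nonneg_left (hge y (hDA ((hC y).1 hy).1)) (by positivity)
    have e6 : ∑ y ∈ C, ((C.card : ℝ))⁻¹ * (∑ i, g i * (y i : ℝ) + e) = ∑ y ∈ C, ((C.card : ℝ))⁻¹ * w y :=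
      le_antisymm (Finset.sum_le_sum e5) (by rw [← e3, ← e4, e1]; exact e2)
    have e7 := (Finset.sum_eq_sum_iff_of_le e5).1 e6
    refine ⟨g, e, hge, fun y hy => ?_⟩
    unfold contact
    rw [Finset.mem_filter]
    refine ⟨hDA ((hC y).1 hy).1, ?_⟩
    exact mul_left_cancel₀ (inv_ne_zero hcard.ne') (e7 y hy)
  refine ⟨D, w, fun g' e' hge' => ?_, hhull, fun x => ?_, fun g' e' hge' t => ?_⟩
  · rcases hcon g' e' hge' with h0 | ⟨g, e, hge, hsub⟩
    · rw [h0]
      intro c _ _ x hx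
      simp at hx
    · exact (hw g e hge).mono hsub
  · rw [hD, hA]
    refine and_congr Iff.rfl (forall_congr' fun t => forall_congr' fun _ => ?_)
    rw [ev_emb]
    norm_cast
  · rcases hcon g' e' hge' with h0 | ⟨g, e, hge, hsub⟩
    · left
      rw [h0]
      intro x hx
      simp at hx
    · rcases hs g e hge t with h1 | h1
      · exact Or.inl fun x hx => h1 x (hsub hx)
      · exact Or.inr fun x hx => h1 x (hsub hx)

theorem hasRUT_of_RC {ι S : Type} [Fintype ι] {P : Set (ι → ℝ)} {a : S → ι → ℤ} {β : S → ℤ} (h : RC P a β) :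
    HasRUT P := by
  obtain ⟨A, w, hw, rfl, -⟩ := h
  exact hasRUT_of_RU hw (covers_gen A w)

end Pool.Agent.SPT
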