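import Pool.Agent.SPT.Tow
import Pool.Agent.SPT.Bas
import Pool.Agent.SPT.Cut

/-!
# [SPT-Main] blow-ups of towers of projective bundles have regular unimodular triangulations
-/

open Finset

set_option autoImplicit false
set_option linter.unusedSectionVars false

namespace Pool.Agent.SPT

open Pool.Agent.SPB Pool.Agent.SPP

open Classical in
/-- The first `l` storeys of the blown up tower of simplex bundles over `Q`. The coordinate `i` belongs to the storey
`lev i`; the fibre of the storey `k` is the simplex with the coordinates `z i ≥ 0` (`lev i = k`) whose sum is at most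
the value of the integral affine function `ev (c k) (b k)`. The coordinates of the storeys from `l` on vanish. The sum
of the coordinates in `J s` is at least the value of the integral affine function `ev (m s) (m0 s)` at the point of `Q`,
for all `s` such that `J s` consists of coordinates of the first `l` storeys. -/
def part {ν ι S : Type} [Fintype ν] [Fintype ι] (Q : Set (ν → ℝ)) (lev : ι → ℕ) (c : ℕ → ν ⊕ ι → ℤ) (b : ℕ → ℤ)
    (J : S → Finset ι) (m : S → ν → ℤ) (m0 : S → ℤ) (l : ℕ) : Set (ν ⊕ ι → ℝ) :=
  {z | (fun j => z (Sum.inl j)) ∈ Q ∧ (∀ i, 0 ≤ z (Sum.inr i)) ∧ (∀ i, l ≤ lev i → z (Sum.inr i) = 0) ∧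
    (∀ i, lev i < l → ∑ j with lev j = lev i, z (Sum.inr j) ≤ ev (c (lev i)) (b (lev i)) z) ∧
    ∀ s, (∀ i ∈ J s, lev i < l) → ev (m s) (m0 s) (fun j => z (Sum.inl j)) ≤ ∑ j ∈ J s, z (Sum.inr j)}

theorem main {ν ι S : Type} [Fintype ν] [Fintype ι] {Q : Set (ν → ℝ)} (hQ : Convex ℝ Q) (hT : HasRUT Q)
    (lev : ι → ℕ) (c : ℕ → ν ⊕ ι → ℤ) (b : ℕ → ℤ) (hc : ∀ i k, k ≤ lev i → c k (Sum.inr i) = 0)
    (J : S → Finset ι) (hJ : ∀ s t, ∀ i ∈ J s, ∀ j ∈ J t, lev i = lev j → s = t)
    (m : S → ν → ℤ) (m0 : S → ℤ) (hm : ∀ s, ∀ q ∈ Q, 0 ≤ ev (m s) (m0 s) q)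
    (h0 : ∀ i, ∀ z ∈ part Q lev c b J m m0 (lev i), 0 ≤ ev (c (lev i)) (b (lev i)) z)
    (hup : ∀ s, ∀ i ∈ J s, ∀ z ∈ part Q lev c b J m m0 (lev i),
      ev (m s) (m0 s) (fun j => z (Sum.inl j)) ≤ ∑ j ∈ J s, z (Sum.inr j) + ev (c (lev i)) (b (lev i)) z) (l : ℕ) :
    HasRUT (part Q lev c b J m m0 l) := by
  classical
  -- the cutting functions
  set a : S → ν ⊕ ι → ℤ := fun s => Sum.elim (fun j => - m s j) (fun i => if i ∈ J s then 1 else 0) with ha
  set β : S → ℤ := fun s => - m0 s with hβ
  have haev : ∀ s z, ev (a s) (β s) z = ∑ j ∈ J s, z (Sum.inr j) - ev (m s) (m0 s) (fun j => z (Sum.inl j)) := by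
    intro s z
    unfold ev
    rw [Fintype.sum_sum_type]
    simp only [ha, hβ, Sum.elim_inl, Sum.elim_inr, Int.cast_neg, neg_mul, Finset.sum_neg_distrib, Int.cast_ite,
      Int.cast_one, Int.cast_zero, ite_mul, one_mul, zero_mul, Finset.sum_ite_mem, Finset.univ_inter]
    ring
  have har : ∀ s i, a s (Sum.inr i) = if i ∈ J s then 1 else 0 := fun s i => rfl
  -- all constraints
  set cc : ℕ ⊕ S → ν ⊕ ι → ℤ := Sum.elim (fun k => Sum.elim (fun j => c k (Sum.inl j))
    (fun i => c k (Sum.inr i) - if lev i = k then 1 else 0)) a with hcc
  set bb : ℕ ⊕ S → ℤ := Sum.elim b β with hbb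
  have hcr : ∀ k i, cc (Sum.inl k) (Sum.inr i) = c k (Sum.inr i) - if lev i = k then 1 else 0 := fun k i => rfl
  have hcs : ∀ s, cc (Sum.inr s) = a s := fun s => rfl
  have hbs : ∀ s, bb (Sum.inr s) = β s := fun s => rfl
  have hcev : ∀ k z, ev (cc (Sum.inl k)) (bb (Sum.inl k)) z =
      ev (c k) (b k) z - ∑ j with lev j = k, z (Sum.inr j) := by
    intro k z
    unfold ev
    rw [Fintype.sum_sum_type, Fintype.sum_sum_type]
    simp only [hcc, hbb, Sum.elim_inl, Sum.elim_inr, Int.cast_sub, Int.cast_ite, Int.cast_one, Int.cast_zero, sub_mul,
      ite_mul, one_mul, zero_mul, Finset.sum_sub_distrib, Finset.sum_filter]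
    ring
  have hpart : ∀ l, part Q lev c b J m m0 l = PQ Q cc bb ({k | ∃ i, lev i < l ∧ k = Sum.inl (lev i)} ∪
      {k | ∃ s, (∀ i ∈ J s, lev i < l) ∧ k = Sum.inr s}) {i | lev i < l} := by
    intro l
    ext z
    unfold part PQ
    refine and_congr Iff.rfl (and_congr Iff.rfl (and_congr ?_ ?_))
    · refine forall_congr' fun i => ?_
      rw [Set.mem_ofPred_eq, not_lt]
    · constructor
      · rintro ⟨h, h'⟩ k (⟨i, hi, rfl⟩ | ⟨s, hs, rfl⟩)
        · rw [hcev]
          linarith [h i hi]
        · rw [hcs, hbs, haev]
          linarith [h' s hs]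
      · intro h
        refine ⟨fun i hi => ?_, fun s hs => ?_⟩
        · have := h (Sum.inl (lev i)) (Or.inl ⟨i, hi, rfl⟩)
          rw [hcev] at this
          linarith
        · have := h (Sum.inr s) (Or.inr ⟨s, hs, rfl⟩)
          rw [hcs, hbs, haev] at this
          linarith
  -- induction over the storeys
  have hRC : ∀ l, RC (part Q lev c b J m m0 l) a β := by
    intro l
    induction l with
    | zero =>
      have h1 := RC.base (ι := ι) hQ hT a β (fun t x hx hx0 => by
        rw [haev]
        simp only [hx0, Finset.sum_const_zero, zero_sub]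
        linarith [hm t _ hx])
      have h2 := h1.cut {s | ∀ i ∈ J s, lev i < 0}
      have h3 : part Q lev c b J m m0 0 = {x : ν ⊕ ι → ℝ | (fun j => x (Sum.inl j)) ∈ Q ∧
          ∀ i, x (Sum.inr i) = 0} ∩ {x | ∀ t ∈ {s | ∀ i ∈ J s, lev i < 0}, 0 ≤ ev (a t) (β t) x} := by
        ext z
        unfold part
        constructor
        · rintro ⟨h1, h2, h3, h4, h5⟩
          refine ⟨⟨h1, fun i => h3 i (Nat.zero_le _)⟩, fun t ht => ?_⟩
          rw [haev]
          linarith [h5 t ht]
        · rintro ⟨⟨h1, h2⟩, h3⟩
          refine ⟨h1, fun i => (h2 i).ge, fun i _ => h2 i, fun i hi => absurd hi (Nat.not_lt_zero _), fun s hs => ?_⟩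
          have := h3 s hs
          rw [haev] at this
          linarith
      rw [h3]
      exact h2
    | succ l ih =>
      obtain ⟨K, hK⟩ : ∃ K : Set (ℕ ⊕ S), K = {k | ∃ i, lev i < l + 1 ∧ k = Sum.inl (lev i)} ∪
        {k | ∃ s, (∀ i ∈ J s, lev i < l) ∧ k = Sum.inr s} := ⟨_, rfl⟩
      -- the new storey
      have hnew : RC (PQ Q cc bb K {i | lev i < l + 1}) a β := by
        by_cases hex : ∃ i, lev i = l
        · have h1 : RC (PQ Q cc bb K {i | lev i < l}) a β := by
            have h2 : PQ Q cc bb K {i | lev i < l} = part Q lev c b J m m0 l := by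
              ext z
              constructor
              · rintro ⟨z1, z2, z3, z4⟩
                rw [hpart]
                refine ⟨z1, z2, z3, ?_⟩
                rintro k (⟨i, hi, rfl⟩ | ⟨s, hs, rfl⟩)
                · exact z4 _ (by rw [hK]; exact Or.inl ⟨i, by omega, rfl⟩)
                · exact z4 _ (by rw [hK]; exact Or.inr ⟨s, hs, rfl⟩)
              · intro hz
                have hz' := hz
                rw [hpart] at hz'
                obtain ⟨z1, z2, z3, z4⟩ := hz'
                refine ⟨z1, z2, z3, ?_⟩
                rw [hK]
                rintro k (⟨i, hi, rfl⟩ | ⟨s, hs, rfl⟩)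
                · by_cases hk' : lev i < l
                  · exact z4 _ (Or.inl ⟨i, hk', rfl⟩)
                  · have hk2 : lev i = l := by omega
                    have h3 := h0 i z (by rw [hk2]; exact hz)
                    rw [hcev]
                    have h4 : ∑ j with lev j = lev i, z (Sum.inr j) = 0 := by
                      refine Finset.sum_eq_zero fun j hj => ?_
                      rw [Finset.mem_filter] at hj
                      refine z3 j ?_
                      show ¬ lev j < l
                      omega
                    rw [h4, sub_zero]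
                    exact h3
                · exact z4 _ (Or.inr ⟨s, hs, rfl⟩)
            rw [h2]
            exact ih
          have hlK : Sum.inl l ∈ K := by
            obtain ⟨i, hi⟩ := hex
            rw [hK]
            exact Or.inl ⟨i, by omega, by rw [hi]⟩
          have c1 : ∀ i, lev i = l → cc (Sum.inl l) (Sum.inr i) = -1 := by
            intro i hi
            rw [hcr, hc i l hi.ge, if_pos hi]
            rfl
          have c2 : ∀ i, lev i = l → ∀ k ∈ K, k ≠ Sum.inl l → cc k (Sum.inr i) = 0 := by
            intro i hi k hk hkl
            rw [hK] at hk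
            rcases hk with ⟨j, hj, rfl⟩ | ⟨s, hs, rfl⟩
            · have hjl : lev j ≠ l := fun h => hkl (by rw [h])
              rw [hcr, hc i (lev j) (by omega), if_neg (by omega)]
              rfl
            · rw [hcs, har, if_neg]
              intro hiJ
              have := hs i hiJ
              omega
          by_cases hJl : ∃ t, ∃ j₀ ∈ J t, lev j₀ = l
          · obtain ⟨t, j₀, hj₀, hlj⟩ := hJl
            have ht' : ∀ t', t' ≠ t → ∀ i, lev i = l → i ∉ J t' := by
              intro t' htt i hi hiJ
              exact htt (hJ t' t i hiJ j₀ hj₀ (by omega))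
            have h3 := stepA h1 (i := j₀) (show ¬ lev j₀ < l by omega) hlK (c1 j₀ hlj) (c2 j₀ hlj)
              (fun q => evz (a t) (β t) q) (fun t' => by
                by_cases htt : t' = t
                · subst htt
                  right
                  refine ⟨by rw [har, if_pos hj₀], fun q => rfl, fun x hx => ?_⟩
                  have hx' : x ∈ part Q lev c b J m m0 (lev j₀) := by
                    rw [hlj, hpart]
                    refine ⟨hx.1, hx.2.1, hx.2.2.1, ?_⟩
                    rintro k (⟨i, hi, rfl⟩ | ⟨s, hs, rfl⟩)
                    · exact hx.2.2.2 _ (by rw [hK]; exact Or.inl ⟨i, by omega, rfl⟩)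
                    · exact hx.2.2.2 _ (by rw [hK]; exact Or.inr ⟨s, hs, rfl⟩)
                  have h4 := hup t' j₀ hj₀ x hx'
                  have h5 : ∑ j with lev j = l, x (Sum.inr j) = 0 := by
                    refine Finset.sum_eq_zero fun j hj => ?_
                    rw [Finset.mem_filter] at hj
                    refine hx.2.2.1 j ?_
                    show ¬ lev j < l
                    omega
                  rw [haev, hcev, h5]
                  rw [hlj] at h4
                  linarith
                · left
                  rw [har, if_neg (ht' t' htt j₀ hlj)])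
            have h4 := addS h3 (j₀ := j₀) (Set.mem_insert _ _) ((J t).filter (fun i => lev i = l))
              (fun i hi _ t' => by
                rw [Finset.mem_filter] at hi
                by_cases htt : t' = t
                · subst htt
                  rw [har, har, if_pos hi.1, if_pos hj₀]
                · rw [har, har, if_neg (ht' t' htt i hi.2), if_neg (ht' t' htt j₀ hlj)])
              (fun i hi _ k hk => by
                rw [Finset.mem_filter] at hi
                by_cases hkl : k = Sum.inl l
                · rw [hkl, c1 i hi.2, c1 j₀ hlj]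
                · rw [c2 i hi.2 k hk hkl, c2 j₀ hlj k hk hkl])
            have h5 := addA h4 (univ.filter (fun i => lev i = l)) hlK (fun i hi _ => c1 i (Finset.mem_filter.1 hi).2)
              (fun i hi _ => c2 i (Finset.mem_filter.1 hi).2) (fun i hi hi' t' => by
              rw [Finset.mem_filter] at hi
              rw [har, if_neg]
              by_cases htt : t' = t
              · subst htt
                intro hiJ
                refine hi' (Or.inr ?_)
                rw [Finset.mem_coe, Finset.mem_filter]
                exact ⟨hiJ, hi.2⟩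
              · exact ht' t' htt i hi.2)
            have hset : insert j₀ {i | lev i < l} ∪ ((J t).filter (fun i => lev i = l) : Finset ι) ∪
                ((univ.filter (fun i => lev i = l) : Finset ι) : Set ι) = {i | lev i < l + 1} := by
              ext i
              simp only [Set.mem_union, Set.mem_insert_iff, Set.mem_ofPred_eq, Finset.mem_coe, Finset.mem_filter,
                Finset.mem_univ, true_and]
              constructor
              · rintro (((h | h) | h) | h)
                · subst h; omega
                · omega
                · omega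
                · omega
              · intro h
                by_cases h' : lev i = l
                · exact Or.inr h'
                · exact Or.inl (Or.inl (Or.inr (by omega)))
            rw [hset] at h5
            exact h5
          · push Not at hJl
            have h5 := addA h1 (univ.filter (fun i => lev i = l)) hlK (fun i hi _ => c1 i (Finset.mem_filter.1 hi).2)
              (fun i hi _ => c2 i (Finset.mem_filter.1 hi).2) (fun i hi _ t' => by
              rw [Finset.mem_filter] at hi
              rw [har, if_neg]
              exact fun hiJ => hJl t' i hiJ hi.2)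
            have hset : {i | lev i < l} ∪ ((univ.filter (fun i => lev i = l) : Finset ι) : Set ι) =
                {i | lev i < l + 1} := by
              ext i
              simp only [Set.mem_union, Set.mem_ofPred_eq, Finset.mem_coe, Finset.mem_filter, Finset.mem_univ,
                true_and]
              omega
            rw [hset] at h5
            exact h5
        · push Not at hex
          have e1 : K = {k | ∃ i, lev i < l ∧ k = Sum.inl (lev i)} ∪
              {k | ∃ s, (∀ i ∈ J s, lev i < l) ∧ k = Sum.inr s} := by
            rw [hK]
            congr 1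
            ext k
            constructor
            · rintro ⟨i, hi, rfl⟩
              have := hex i
              exact ⟨i, by omega, rfl⟩
            · rintro ⟨i, hi, rfl⟩
              exact ⟨i, by omega, rfl⟩
          have e2 : {i | lev i < l + 1} = {i | lev i < l} := by
            ext i
            have := hex i
            constructor
            · intro (h : lev i < l + 1)
              show lev i < l
              omega
            · intro (h : lev i < l)
              show lev i < l + 1
              omega
          rw [e1, e2, ← hpart]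
          exact ih
      -- the new cuts
      have h6 := hnew.cut {s | ∀ i ∈ J s, lev i < l + 1}
      have h7 : part Q lev c b J m m0 (l + 1) = PQ Q cc bb K {i | lev i < l + 1} ∩
          {x | ∀ t ∈ {s | ∀ i ∈ J s, lev i < l + 1}, 0 ≤ ev (a t) (β t) x} := by
        rw [hpart]
        ext z
        constructor
        · rintro ⟨z1, z2, z3, z4⟩
          refine ⟨⟨z1, z2, z3, ?_⟩, fun t ht => ?_⟩
          · rw [hK]
            rintro k (⟨i, hi, rfl⟩ | ⟨s, hs, rfl⟩)
            · exact z4 _ (Or.inl ⟨i, hi, rfl⟩)
            · exact z4 _ (Or.inr ⟨s, fun i hi => by have := hs i hi; omega, rfl⟩)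
          · exact z4 _ (Or.inr ⟨t, ht, rfl⟩)
        · rintro ⟨⟨z1, z2, z3, z4⟩, z5⟩
          refine ⟨z1, z2, z3, ?_⟩
          rintro k (⟨i, hi, rfl⟩ | ⟨s, hs, rfl⟩)
          · exact z4 _ (by rw [hK]; exact Or.inl ⟨i, hi, rfl⟩)
          · exact z5 s hs
      rw [h7]
      exact h6
  exact hasRUT_of_RC (hRC l)

end Pool.Agent.SPT
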