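import Pool.Agent.SPT.Uni
import Pool.Agent.SPP.Cov

/-!
# [SPT-Stp] chimneys over polytopes with sign consistent triangulations

`u i = 1`, `P ⊆ {x i = 0}`; `P' = {y | y - (y i) u ∈ P, 0 ≤ y i ≤ g (y - (y i) u)}`, `Φ_t = a_t · + β_t`, and for every
`t` either `Φ_t u = 0` or `Φ_t u = 1`, `Φ_t = sh`. The fibre heights are `τ² + δ τ` with `τ = y i + sh(q)`.
-/

open Finset

set_option autoImplicit false
set_option linter.unusedSectionVars false

namespace Pool.Agent.SPT

open Pool.Agent.SPB Pool.Agent.SPP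

theorem mem_contactT {ι : Type} [Fintype ι] {A : Finset (ι → ℤ)} {w : (ι → ℤ) → ℝ} {a : ι → ℝ} {b : ℝ}
    {x : ι → ℤ} : x ∈ contact A w a b ↔ x ∈ A ∧ ∑ i, a i * (x i : ℝ) + b = w x := by
  classical
  unfold contact
  rw [Finset.mem_filter]

private theorem sq_nn (τ : ℤ) (δ : ℝ) (h0 : 0 ≤ δ) (h1 : δ < 1) : 0 ≤ (τ : ℝ) ^ 2 + δ * τ := by
  rcases le_or_gt 0 τ with h | h
  · have : (0 : ℝ) ≤ τ := by exact_mod_cast h
    positivity
  · have h2 : τ ≤ -1 := by omega
    have h3 : (τ : ℝ) ≤ -1 := by exact_mod_cast h2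
    nlinarith

theorem RC.step {ι S : Type} [Fintype ι] {P P' : Set (ι → ℝ)} {a : S → ι → ℤ} {β : S → ℤ} (hP : RC P a β) (i : ι)
    (u : ι → ℤ) (hui : u i = 1) (hPi : ∀ x ∈ P, x i = 0) (c : ι → ℤ) (e : ℤ) (h₁ : ∀ x ∈ P, 0 ≤ ev c e x)
    (sh : (ι → ℤ) → ℤ) (hsh : ∀ t, ∑ j, a t j * u j = 0 ∨ (∑ j, a t j * u j = 1 ∧ (∀ q, sh q = evz (a t) (β t) q) ∧
      ∀ x ∈ P, 0 ≤ ev (a t) (β t) x + ev c e x))
    (hP' : ∀ y : ι → ℝ, y ∈ P' ↔ prj i u y ∈ P ∧ 0 ≤ y i ∧ y i ≤ ev c e (prj i u y)) : RC P' a β := by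
  classical
  obtain ⟨A, η, hη, rfl, hA, hcons⟩ := hP
  have hAi : ∀ q ∈ A, q i = 0 := by
    intro q hq
    have := hPi (emb q) ((hA q).1 hq)
    unfold emb at this
    exact_mod_cast this
  have h₁' : ∀ q ∈ A, 0 ≤ evz c e q := by
    intro q hq
    have := h₁ (emb q) ((hA q).1 hq)
    rw [ev_emb] at this
    exact_mod_cast this
  -- the lattice points
  obtain ⟨B, hB⟩ : ∃ B : Finset (ι → ℤ), ∀ y, y ∈ B ↔ prj i u y ∈ A ∧ 0 ≤ y i ∧ y i ≤ evz c e (prj i u y) := by
    refine ⟨A.biUnion (fun q => (Finset.Icc 0 (evz c e q)).image (fun t => fun j => q j + t * u j)), fun y => ?_⟩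
    simp only [Finset.mem_biUnion, Finset.mem_image, Finset.mem_Icc]
    constructor
    · rintro ⟨q, hq, t, ⟨ht0, ht1⟩, rfl⟩
      have e1 : prj i u (fun j => q j + t * u j) = q := by
        funext j
        simp [prj, hAi q hq, hui]
      rw [e1]
      simp only [hAi q hq, hui, mul_one, zero_add]
      exact ⟨hq, ht0, ht1⟩
    · rintro ⟨h3, h4, h5⟩
      refine ⟨_, h3, y i, ⟨h4, h5⟩, ?_⟩
      funext j
      simp [prj]
  have hBm : ∀ q ∈ A, ∀ t : ℤ, 0 ≤ t → t ≤ evz c e q → (fun j => q j + t * u j) ∈ B ∧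
      prj i u (fun j => q j + t * u j) = q ∧ (fun j => q j + t * u j) i = t := by
    intro q hq t ht0 ht1
    have e1 : prj i u (fun j => q j + t * u j) = q := by
      funext j
      simp [prj, hAi q hq, hui]
    have e2 : (fun j => q j + t * u j) i = t := by
      simp [hAi q hq, hui]
    have e3 : q i + t * u i = t := e2
    refine ⟨?_, e1, e2⟩
    rw [hB, e1, e3]
    exact ⟨hq, ht0, ht1⟩
  have hhull := tot_hull i u hui hAi c c e e (fun y => by rw [hB]; simp only [and_self]) h₁' h₁' (covers_gen A η)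
    (fun _ _ _ => Or.inl fun q _ => le_rfl)
  obtain ⟨δ, hδ0, hδ1, hinj⟩ := exists_delta A
  -- bound of the fibre heights
  obtain ⟨W, hW0, hWlo, hWhi⟩ : ∃ W : ℝ, 0 ≤ W ∧ (∀ q ∈ A, ((sh q : ℤ) : ℝ) ^ 2 + δ q * (sh q : ℤ) ≤ W) ∧
      ∀ q ∈ A, ((sh q + evz c e q : ℤ) : ℝ) ^ 2 + δ q * (sh q + evz c e q : ℤ) ≤ W := by
    have hnn : ∀ q ∈ A, 0 ≤ (((sh q : ℤ) : ℝ) ^ 2 + δ q * (sh q : ℤ)) +
        (((sh q + evz c e q : ℤ) : ℝ) ^ 2 + δ q * (sh q + evz c e q : ℤ)) := fun q _ =>
      add_nonneg (sq_nn _ _ (hδ0 q) (hδ1 q)) (sq_nn _ _ (hδ0 q) (hδ1 q))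
    refine ⟨∑ q ∈ A, ((((sh q : ℤ) : ℝ) ^ 2 + δ q * (sh q : ℤ)) +
        (((sh q + evz c e q : ℤ) : ℝ) ^ 2 + δ q * (sh q + evz c e q : ℤ))), Finset.sum_nonneg hnn, ?_, ?_⟩
    · intro q hq
      have h1 := Finset.single_le_sum (f := fun q => (((sh q : ℤ) : ℝ) ^ 2 + δ q * (sh q : ℤ)) +
        (((sh q + evz c e q : ℤ) : ℝ) ^ 2 + δ q * (sh q + evz c e q : ℤ))) hnn hq
      have h2 := sq_nn (sh q + evz c e q) _ (hδ0 q) (hδ1 q)
      beta_reduce at h1
      linarith
    · intro q hq
      have h1 := Finset.single_le_sum (f := fun q => (((sh q : ℤ) : ℝ) ^ 2 + δ q * (sh q : ℤ)) +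
        (((sh q + evz c e q : ℤ) : ℝ) ^ 2 + δ q * (sh q + evz c e q : ℤ))) hnn hq
      have h2 := sq_nn (sh q) _ (hδ0 q) (hδ1 q)
      beta_reduce at h1
      linarith
  obtain ⟨ε', hε', hst⟩ := stabU (covers_gen A η)
  obtain ⟨N, hN, hNW⟩ : ∃ N : ℝ, 0 < N ∧ W ≤ ε' * N := by
    refine ⟨W / ε' + 1, by positivity, ?_⟩
    rw [mul_add, mul_div_cancel₀ _ (ne_of_gt hε')]
    linarith
  set w' : (ι → ℤ) → ℝ := fun x => N * η (prj i u x) + (((x i + sh (prj i u x) : ℤ) : ℝ) ^ 2 +
    δ (prj i u x) * (x i + sh (prj i u x) : ℤ)) with hw'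
  have hcore : ∀ (g : ι → ℝ) (b : ℝ), (∀ x ∈ B, ∑ j, g j * (x j : ℝ) + b ≤ w' x) →
      Uni (contact B w' g b) ∧
      ∀ t, (∀ x ∈ contact B w' g b, 0 ≤ evz (a t) (β t) x) ∨ (∀ x ∈ contact B w' g b, evz (a t) (β t) x ≤ 0) := by
    intro g b hg
    set s : ℝ := ∑ j, g j * (u j : ℝ) with hs'
    choose m hm using fun q : ι → ℤ => (show ∃ m : ℝ, q ∈ A →
        (∀ r : ℤ, sh q ≤ r → r ≤ sh q + evz c e q → m ≤ (r : ℝ) ^ 2 + δ q * r - s * r) ∧
        ∃ r : ℤ, sh q ≤ r ∧ r ≤ sh q + evz c e q ∧ (r : ℝ) ^ 2 + δ q * r - s * r = m by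
      by_cases hq : q ∈ A
      · obtain ⟨m, hm⟩ := exists_fminS (sh q) (sh q + evz c e q) (by have := h₁' q hq; omega) (δ q) s
        exact ⟨m, fun _ => hm⟩
      · exact ⟨0, fun h => absurd h hq⟩)
    have hsum : ∀ (q : ι → ℤ) (t : ℤ), ∑ j, g j * (((q j + t * u j : ℤ) : ℤ) : ℝ) = ∑ j, g j * (q j : ℝ) + t * s := by
      intro q t
      rw [hs', Finset.mul_sum, ← Finset.sum_add_distrib]
      refine Finset.sum_congr rfl fun j _ => ?_
      push_cast
      ring
    have hle : ∀ q ∈ A, ∑ j, g j * (q j : ℝ) + b ≤ N * η q + (m q + s * sh q) := by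
      intro q hq
      obtain ⟨r, hr0, hr1, hr2⟩ := (hm q hq).2
      obtain ⟨k1, k2, k3⟩ := hBm q hq (r - sh q) (by omega) (by omega)
      have h3 := hg _ k1
      have k4 : q i + (r - sh q) * u i = r - sh q := k3
      rw [hsum, hw'] at h3
      beta_reduce at h3
      rw [k2, k4] at h3
      have k5 : r - sh q + sh q = r := by ring
      rw [k5] at h3
      push_cast at h3
      linarith
    have hcon : ∀ y ∈ contact B w' g b, prj i u y ∈ A ∧ 0 ≤ y i ∧ y i ≤ evz c e (prj i u y) ∧
        ((y i + sh (prj i u y) : ℤ) : ℝ) ^ 2 + δ (prj i u y) * (y i + sh (prj i u y) : ℤ) -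
          s * (y i + sh (prj i u y) : ℤ) = m (prj i u y) ∧
        ∑ j, g j * ((prj i u y j : ℤ) : ℝ) + b = N * η (prj i u y) + (m (prj i u y) + s * sh (prj i u y)) := by
      intro y hy
      rw [mem_contactT] at hy
      obtain ⟨hyB, hye⟩ := hy
      obtain ⟨k1, k2, k3⟩ := (hB y).1 hyB
      have h3 := hle _ k1
      have h4 := (hm _ k1).1 (y i + sh (prj i u y)) (by omega) (by omega)
      have h5 : ∑ j, g j * (y j : ℝ) = ∑ j, g j * ((prj i u y j : ℤ) : ℝ) + (y i : ℤ) * s := by
        rw [hs', Finset.mul_sum, ← Finset.sum_add_distrib]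
        refine Finset.sum_congr rfl fun j _ => ?_
        simp only [prj]
        push_cast
        ring
      rw [h5, hw'] at hye
      beta_reduce at hye
      have h6 : s * ((y i + sh (prj i u y) : ℤ) : ℝ) = (y i : ℤ) * s + s * sh (prj i u y) := by
        push_cast; ring
      refine ⟨k1, k2, k3, ?_, ?_⟩
      · linarith
      · linarith
    set B₀ := A.filter (fun q => ∑ j, g j * (q j : ℝ) + b = N * η q + (m q + s * sh q)) with hB0
    -- the compatible function
    have hst' := hst (fun q => η q + (m q + s * sh q) / N) (fun q => if 0 ≤ s then - (s / N) * (evz c e q : ℤ) else 0) (by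
      intro q hq
      obtain ⟨k1, r, hr0, hr1, hr2⟩ := hm q hq
      have hr0' : ((sh q : ℤ) : ℝ) ≤ (r : ℤ) := by exact_mod_cast hr0
      have hr1' : (r : ℝ) ≤ (sh q + evz c e q : ℤ) := by exact_mod_cast hr1
      have hn := sq_nn r _ (hδ0 q) (hδ1 q)
      beta_reduce
      split_ifs with h3
      · have e1 : η q + (m q + s * sh q) / N - η q - - (s / N) * (evz c e q : ℤ) =
            (m q + s * (sh q + evz c e q : ℤ)) / N := by
          push_cast
          field_simp
          ring
        have k2 := k1 (sh q + evz c e q) (by have := h₁' q hq; omega) le_rfl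
        have k3 : 0 ≤ m q + s * (sh q + evz c e q : ℤ) := by
          rw [← hr2]
          have := mul_le_mul_of_nonneg_left hr1' h3
          linarith
        rw [e1, abs_of_nonneg (div_nonneg k3 hN.le), div_le_iff₀ hN]
        have := hWhi q hq
        linarith
      · push Not at h3
        have k2 := k1 (sh q) le_rfl (by have := h₁' q hq; omega)
        have k3 : 0 ≤ m q + s * sh q := by
          rw [← hr2]
          have := mul_nonneg_of_nonpos_of_nonpos h3.le (sub_nonpos.2 hr0')
          linarith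
        have e1 : η q + (m q + s * sh q) / N - η q - 0 = (m q + s * sh q) / N := by ring
        rw [e1, abs_of_nonneg (div_nonneg k3 hN.le), div_le_iff₀ hN]
        have := hWlo q hq
        linarith) (by
      intro a₀ b₀ hab
      by_cases h3 : 0 ≤ s
      · have e1 : ∀ x : ι → ℤ, ∑ j, - (s / N) * (c j : ℝ) * (x j : ℝ) + - (s / N) * (e : ℝ) =
            - (s / N) * (evz c e x : ℤ) := by
          intro x
          unfold evz
          push_cast
          rw [mul_add, Finset.mul_sum]
          congr 1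
          exact Finset.sum_congr rfl fun j _ => by ring
        refine ⟨fun j => - (s / N) * (c j : ℝ), - (s / N) * (e : ℝ), ?_, ?_⟩
        · intro x _
          beta_reduce
          rw [e1, if_pos h3]
        · intro x _
          beta_reduce
          rw [e1, if_pos h3]
      · refine ⟨0, 0, ?_, ?_⟩
        · intro x _
          beta_reduce
          rw [if_neg h3]
          simp
        · intro x _
          beta_reduce
          rw [if_neg h3]
          simp) (fun j => g j / N) (b / N) (by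
      intro q hq
      have e1 : ∑ j, g j / N * (q j : ℝ) + b / N = (∑ j, g j * (q j : ℝ) + b) / N := by
        rw [add_div, Finset.sum_div]
        congr 1
        exact Finset.sum_congr rfl fun j _ => by ring
      rw [e1, div_le_iff₀ hN]
      have e2 : (η q + (m q + s * sh q) / N) * N = N * η q + (m q + s * sh q) := by
        field_simp
      rw [e2]
      exact hle q hq)
    obtain ⟨a₀, b₀, hab, hsub⟩ := hst'
    have hB0C : ∀ q ∈ B₀, q ∈ contact A η a₀ b₀ := by
      intro q hq
      rw [hB0, Finset.mem_filter] at hq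
      refine hsub (mem_contactT.2 ⟨hq.1, ?_⟩)
      have e1 : ∑ j, g j / N * (q j : ℝ) + b / N = (∑ j, g j * (q j : ℝ) + b) / N := by
        rw [add_div, Finset.sum_div]
        congr 1
        exact Finset.sum_congr rfl fun j _ => by ring
      rw [e1, hq.2]
      field_simp
    have hB0A : ∀ q ∈ B₀, q ∈ A := fun q hq => (mem_contactT.1 (hB0C q hq)).1
    have hcon' : ∀ y ∈ contact B w' g b, prj i u y ∈ B₀ := by
      intro y hy
      obtain ⟨k1, -, -, -, k2⟩ := hcon y hy
      rw [hB0, Finset.mem_filter]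
      exact ⟨k1, k2⟩
    refine ⟨?_, ?_⟩
    · refine uni_totS (B₀ := B₀) i u ((hη a₀ b₀ hab).mono hB0C) (evz c e) sh δ m s hδ0 hδ1
        (fun q hq q' hq' => hinj q (hB0A q hq) q' (hB0A q' hq')) (fun q hq => (hm q (hB0A q hq)).1) ?_
      intro y hy
      obtain ⟨-, k2, k3, k4, -⟩ := hcon y hy
      exact ⟨hcon' y hy, k2, k3, k4⟩
    · -- the sign of `Φ_t`
      intro t
      have hΦ : ∀ y : ι → ℤ, evz (a t) (β t) y = evz (a t) (β t) (prj i u y) + (∑ j, a t j * u j) * y i := by
        intro y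
        unfold evz
        rw [sum_prj]
        simp only [Int.cast_id]
        ring
      have hc := hcons a₀ b₀ hab t
      rcases hsh t with h0 | ⟨h1, h2, h3⟩
      · rcases hc with hc | hc
        · left
          intro x hx
          rw [hΦ, h0, zero_mul, add_zero]
          exact hc _ (hB0C _ (hcon' x hx))
        · right
          intro x hx
          rw [hΦ, h0, zero_mul, add_zero]
          exact hc _ (hB0C _ (hcon' x hx))
      · have hup' : ∀ q ∈ A, 0 ≤ evz (a t) (β t) q + evz c e q := by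
          intro q hq
          have := h3 (emb q) ((hA q).1 hq)
          rw [ev_emb, ev_emb] at this
          exact_mod_cast this
        have hτ : ∀ y : ι → ℤ, evz (a t) (β t) y = y i + sh (prj i u y) := by
          intro y
          rw [hΦ, h1, h2]
          ring
        have hshe : ∀ q, sh q = evz (a t) (β t) q := h2
        -- the minimisers of the fibres
        have hpos : ∀ y ∈ contact B w' g b, 0 ≤ s → 0 ≤ evz (a t) (β t) y := by
          intro y hy hs0
          obtain ⟨k1, k2, k3, k4, -⟩ := hcon y hy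
          rw [hτ]
          by_contra hcon3
          push Not at hcon3
          have k5 := hup' _ k1
          rw [← hshe] at k5
          have k6 := (hm _ k1).1 (y i + sh (prj i u y) + 1) (by omega) (by omega)
          rw [← k4] at k6
          push_cast at k6
          have k7 : ((y i : ℤ) : ℝ) + (sh (prj i u y) : ℤ) ≤ -1 := by
            have : y i + sh (prj i u y) ≤ -1 := by omega
            exact_mod_cast this
          have := hδ1 (prj i u y)
          nlinarith
        have hneg : ∀ y ∈ contact B w' g b, s < 0 → sh (prj i u y) ≤ 0 → evz (a t) (β t) y ≤ 0 := by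
          intro y hy hs0 hsh0
          obtain ⟨k1, k2, k3, k4, -⟩ := hcon y hy
          rw [hτ]
          by_contra hcon3
          push Not at hcon3
          have k6 := (hm _ k1).1 (y i + sh (prj i u y) - 1) (by omega) (by omega)
          rw [← k4] at k6
          push_cast at k6
          have k7 : (1 : ℝ) ≤ ((y i : ℤ) : ℝ) + (sh (prj i u y) : ℤ) := by
            have : 1 ≤ y i + sh (prj i u y) := by omega
            exact_mod_cast this
          have := hδ0 (prj i u y)
          nlinarith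
        rcases le_or_gt 0 s with hs0 | hs0
        · exact Or.inl fun y hy => hpos y hy hs0
        · rcases hc with hc | hc
          · left
            intro y hy
            obtain ⟨k1, k2, -, -, -⟩ := hcon y hy
            rw [hτ, hshe]
            have := hc _ (hB0C _ (hcon' y hy))
            omega
          · right
            intro y hy
            refine hneg y hy hs0 ?_
            rw [hshe]
            exact hc _ (hB0C _ (hcon' y hy))
  refine ⟨B, w', fun g b hg => (hcore g b hg).1, ?_, ?_, fun g b hg => (hcore g b hg).2⟩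
  · ext y
    rw [hP', hhull]
    simp only [and_self]
  · intro y
    rw [hP', hB, hA, emb_prj, ← emb_prj, ev_emb]
    refine and_congr_right fun _ => ?_
    unfold emb
    norm_cast

end Pool.Agent.SPT
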