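import Pool.Agent.SPT.Stp
import Pool.Agent.SPP.NfA

/-!
# [SPT-Tow] faces of towers and the steps from face to face
-/

open Finset

set_option autoImplicit false
set_option linter.unusedSectionVars false

namespace Pool.Agent.SPT

open Pool.Agent.SPB Pool.Agent.SPP

variable {ν ι S κ : Type} [Fintype ν] [Fintype ι] [DecidableEq ν] [DecidableEq ι]

/-- the points over `Q` with nonnegative new coordinates, which vanish outside of `I`, satisfying the inequalities
`K` -/
def PQ (Q : Set (ν → ℝ)) (c : κ → ν ⊕ ι → ℤ) (b : κ → ℤ) (K : Set κ) (I : Set ι) : Set (ν ⊕ ι → ℝ) :=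
  {z | (fun j => z (Sum.inl j)) ∈ Q ∧ (∀ i, 0 ≤ z (Sum.inr i)) ∧ (∀ i, i ∉ I → z (Sum.inr i) = 0) ∧
    ∀ k ∈ K, 0 ≤ ev (c k) (b k) z}

/-- a new coordinate -/
theorem stepA {Q : Set (ν → ℝ)} {c : κ → ν ⊕ ι → ℤ} {b : κ → ℤ} {K : Set κ} {I : Set ι} {a : S → ν ⊕ ι → ℤ}
    {β : S → ℤ} (h : RC (PQ Q c b K I) a β) {i : ι} (hi : i ∉ I) {k₁ : κ} (hk₁ : k₁ ∈ K)
    (hc₁ : c k₁ (Sum.inr i) = -1) (hc : ∀ k ∈ K, k ≠ k₁ → c k (Sum.inr i) = 0) (sh : (ν ⊕ ι → ℤ) → ℤ)
    (hsh : ∀ t, a t (Sum.inr i) = 0 ∨ (a t (Sum.inr i) = 1 ∧ (∀ q, sh q = evz (a t) (β t) q) ∧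
      ∀ x ∈ PQ Q c b K I, 0 ≤ ev (a t) (β t) x + ev (c k₁) (b k₁) x)) : RC (PQ Q c b K (insert i I)) a β := by
  refine h.step (Sum.inr i) (Pi.single (Sum.inr i) 1) (by simp) (fun x hx => hx.2.2.1 i hi) (c k₁) (b k₁)
    (fun x hx => hx.2.2.2 k₁ hk₁) sh (by simpa only [sum_single] using hsh) ?_
  intro y
  have e : ∀ k, ev (c k) (b k) (prj (Sum.inr i) (Pi.single (Sum.inr i) 1) y) =
      ev (c k) (b k) y - y (Sum.inr i) * (c k (Sum.inr i) : ℝ) := by
    intro k
    have := ev_prj (c k) (b k) (Sum.inr i) (Pi.single (Sum.inr i) 1) y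
    rw [sum_single] at this
    exact this
  have el : ∀ j, prj (Sum.inr i) (Pi.single (Sum.inr i) 1) y (Sum.inl j) = y (Sum.inl j) := by
    intro j
    simp [prj]
  have ei : prj (Sum.inr i) (Pi.single (Sum.inr i) 1) y (Sum.inr i) = 0 := by
    simp [prj]
  have ej : ∀ j, j ≠ i → prj (Sum.inr i) (Pi.single (Sum.inr i) 1) y (Sum.inr j) = y (Sum.inr j) := by
    intro j hj
    have : (Sum.inr j : ν ⊕ ι) ≠ Sum.inr i := fun h => hj (Sum.inr_injective h)
    simp [prj, Pi.single_eq_of_ne this]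
  rw [e, hc₁]
  constructor
  · rintro ⟨h0, h1, h2, h3⟩
    refine ⟨⟨?_, fun j => ?_, fun j hj => ?_, fun k hk => ?_⟩, h1 i, ?_⟩
    · have : (fun j => prj (Sum.inr i) (Pi.single (Sum.inr i) 1) y (Sum.inl j)) = fun j => y (Sum.inl j) :=
        funext el
      rw [this]
      exact h0
    · by_cases hj : j = i
      · subst hj; rw [ei]
      · rw [ej j hj]; exact h1 j
    · by_cases hj' : j = i
      · subst hj'; rw [ei]
      · rw [ej j hj']
        exact h2 j (by simp [hj, hj'])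
    · rw [e]
      have h4 := h3 k hk
      have h5 := h1 i
      by_cases e1 : k = k₁
      · subst e1
        rw [hc₁]; push_cast; linarith
      · rw [hc k hk e1]; push_cast; linarith
    · have := h3 k₁ hk₁
      push_cast; linarith
  · rintro ⟨⟨h0, h1, h2, h3⟩, h4, h5⟩
    push_cast at h5
    refine ⟨?_, fun j => ?_, fun j hj => ?_, fun k hk => ?_⟩
    · have : (fun j => prj (Sum.inr i) (Pi.single (Sum.inr i) 1) y (Sum.inl j)) = fun j => y (Sum.inl j) :=
        funext el
      rw [this] at h0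
      exact h0
    · by_cases hj : j = i
      · subst hj; exact h4
      · have := h1 j
        rw [ej j hj] at this
        exact this
    · have hji : j ≠ i := fun h => hj (by simp [h])
      have := h2 j (fun h => hj (by simp [h]))
      rw [ej j hji] at this
      exact this
    · by_cases e1 : k = k₁
      · subst e1
        linarith
      · have := h3 k hk
        rw [e, hc k hk e1] at this
        push_cast at this
        linarith

/-- splitting of the coordinate `j₀` -/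
theorem stepS {Q : Set (ν → ℝ)} {c : κ → ν ⊕ ι → ℤ} {b : κ → ℤ} {K : Set κ} {I : Set ι} {a : S → ν ⊕ ι → ℤ}
    {β : S → ℤ} (h : RC (PQ Q c b K I) a β) {j₀ i : ι} (hj₀ : j₀ ∈ I) (hi : i ∉ I)
    (ha : ∀ t, a t (Sum.inr i) = a t (Sum.inr j₀)) (hc : ∀ k ∈ K, c k (Sum.inr i) = c k (Sum.inr j₀)) :
    RC (PQ Q c b K (insert i I)) a β := by
  have hij : i ≠ j₀ := fun h => hi (h ▸ hj₀)
  have hij' : (Sum.inr i : ν ⊕ ι) ≠ Sum.inr j₀ := fun h => hij (Sum.inr_injective h)
  set u : ν ⊕ ι → ℤ := Pi.single (Sum.inr i) 1 - Pi.single (Sum.inr j₀) 1 with hu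
  have hui : u (Sum.inr i) = 1 := by simp [hu, Pi.single_eq_of_ne hij']
  have hu0 : u (Sum.inr j₀) = -1 := by simp [hu, Pi.single_eq_of_ne (Ne.symm hij')]
  have es : ∀ z : ν ⊕ ι → ℝ, ev (Pi.single (Sum.inr j₀) (1 : ℤ)) 0 z = z (Sum.inr j₀) := by
    intro z
    unfold ev
    rw [Finset.sum_eq_single (Sum.inr j₀)]
    · simp
    · intro j _ hj
      simp [Pi.single_eq_of_ne hj]
    · intro h
      exact absurd (Finset.mem_univ _) h
  refine h.step (Sum.inr i) u hui (fun x hx => hx.2.2.1 i hi) (Pi.single (Sum.inr j₀) 1) 0 ?_ (fun _ => 0) ?_ ?_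
  · intro x hx
    rw [es]
    exact hx.2.1 j₀
  · intro t
    left
    rw [hu, sum_single_sub, ha, sub_self]
  · intro y
    have e : ∀ k ∈ K, ev (c k) (b k) (prj (Sum.inr i) u y) = ev (c k) (b k) y := by
      intro k hk
      have := ev_prj (c k) (b k) (Sum.inr i) u y
      rw [hu, sum_single_sub, hc k hk, sub_self, Int.cast_zero, mul_zero, sub_zero] at this
      rw [hu]
      exact this
    have el : ∀ j, prj (Sum.inr i) u y (Sum.inl j) = y (Sum.inl j) := by
      intro j
      simp [prj, hu]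
    have ei : prj (Sum.inr i) u y (Sum.inr i) = 0 := by
      simp [prj, hui]
    have e0 : prj (Sum.inr i) u y (Sum.inr j₀) = y (Sum.inr j₀) + y (Sum.inr i) := by
      simp [prj, hu0]
    have ej : ∀ j, j ≠ i → j ≠ j₀ → prj (Sum.inr i) u y (Sum.inr j) = y (Sum.inr j) := by
      intro j hj hj'
      have h1 : (Sum.inr j : ν ⊕ ι) ≠ Sum.inr i := fun h => hj (Sum.inr_injective h)
      have h2 : (Sum.inr j : ν ⊕ ι) ≠ Sum.inr j₀ := fun h => hj' (Sum.inr_injective h)
      simp [prj, hu, Pi.single_eq_of_ne h1, Pi.single_eq_of_ne h2]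
    have eQ : (fun j => prj (Sum.inr i) u y (Sum.inl j)) = fun j => y (Sum.inl j) := funext el
    rw [es, e0]
    constructor
    · rintro ⟨h0, h1, h2, h3⟩
      refine ⟨⟨?_, fun j => ?_, fun j hj => ?_, fun k hk => ?_⟩, h1 i, ?_⟩
      · rw [eQ]; exact h0
      · by_cases hj : j = i
        · subst hj; rw [ei]
        · by_cases hj' : j = j₀
          · subst hj'
            rw [e0]
            exact add_nonneg (h1 _) (h1 _)
          · rw [ej j hj hj']; exact h1 j
      · have hj0 : j ≠ j₀ := fun h => hj (h ▸ hj₀)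
        by_cases hj' : j = i
        · subst hj'; rw [ei]
        · rw [ej j hj' hj0]
          exact h2 j (by simp [hj, hj'])
      · rw [e k hk]
        exact h3 k hk
      · have := h1 j₀
        linarith
    · rintro ⟨⟨h0, h1, h2, h3⟩, h4, h5⟩
      refine ⟨?_, fun j => ?_, fun j hj => ?_, fun k hk => ?_⟩
      · rw [eQ] at h0; exact h0
      · by_cases hj : j = i
        · subst hj; exact h4
        · by_cases hj' : j = j₀
          · subst hj'
            linarith
          · have := h1 j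
            rw [ej j hj hj'] at this
            exact this
      · have hji : j ≠ i := fun h => hj (by simp [h])
        have hj0 : j ≠ j₀ := fun h => hj (by simp [h, hj₀])
        have := h2 j (fun h => hj (by simp [h]))
        rw [ej j hji hj0] at this
        exact this
      · have := h3 k hk
        rw [e k hk] at this
        exact this

/-- several new coordinates on which all `a t` vanish -/
theorem addA {Q : Set (ν → ℝ)} {c : κ → ν ⊕ ι → ℤ} {b : κ → ℤ} {K : Set κ} {I : Set ι} {a : S → ν ⊕ ι → ℤ}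
    {β : S → ℤ} (h : RC (PQ Q c b K I) a β) (X : Finset ι) {k₁ : κ} (hk₁ : k₁ ∈ K)
    (hc₁ : ∀ i ∈ X, i ∉ I → c k₁ (Sum.inr i) = -1) (hc : ∀ i ∈ X, i ∉ I → ∀ k ∈ K, k ≠ k₁ → c k (Sum.inr i) = 0)
    (ha : ∀ i ∈ X, i ∉ I → ∀ t, a t (Sum.inr i) = 0) : RC (PQ Q c b K (I ∪ X)) a β := by
  induction X using Finset.induction_on with
  | empty => simpa using h
  | insert i X hiX ih =>
    have h1 := ih (fun j hj => hc₁ j (Finset.mem_insert_of_mem hj)) (fun j hj => hc j (Finset.mem_insert_of_mem hj))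
      (fun j hj => ha j (Finset.mem_insert_of_mem hj))
    rw [Finset.coe_insert, Set.union_insert]
    by_cases hi : i ∈ I
    · rw [Set.insert_eq_of_mem (Set.mem_union_left _ hi)]
      exact h1
    · have hm := Finset.mem_insert_self i X
      exact stepA h1 (by simp [hi, hiX]) hk₁ (hc₁ i hm hi) (hc i hm hi) (fun _ => 0) (fun t => Or.inl (ha i hm hi t))

/-- several splittings -/
theorem addS {Q : Set (ν → ℝ)} {c : κ → ν ⊕ ι → ℤ} {b : κ → ℤ} {K : Set κ} {I : Set ι} {a : S → ν ⊕ ι → ℤ}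
    {β : S → ℤ} (h : RC (PQ Q c b K I) a β) {j₀ : ι} (hj₀ : j₀ ∈ I) (X : Finset ι)
    (ha : ∀ i ∈ X, i ∉ I → ∀ t, a t (Sum.inr i) = a t (Sum.inr j₀))
    (hc : ∀ i ∈ X, i ∉ I → ∀ k ∈ K, c k (Sum.inr i) = c k (Sum.inr j₀)) : RC (PQ Q c b K (I ∪ X)) a β := by
  induction X using Finset.induction_on with
  | empty => simpa using h
  | insert i X hiX ih =>
    have h1 := ih (fun j hj => ha j (Finset.mem_insert_of_mem hj)) (fun j hj => hc j (Finset.mem_insert_of_mem hj))
    rw [Finset.coe_insert, Set.union_insert]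
    by_cases hi : i ∈ I
    · rw [Set.insert_eq_of_mem (Set.mem_union_left _ hi)]
      exact h1
    · have hm := Finset.mem_insert_self i X
      exact stepS h1 (Set.mem_union_left _ hj₀) (by simp [hi, hiX]) (ha i hm hi) (hc i hm hi)

end Pool.Agent.SPT
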